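import Pool.Agent.LC.Main
import Pool.Agent.LC.Final
import Pool.Agent.LC.TopK

/-!
No planar cubic 2-connected graph has a unique longest cycle; it has at least three longest
cycles with the same vertex set. Indeed for every cycle `C` of such a graph and every edge `e` of
`C` there is a second cycle through `e` which passes through all vertices of `C`.
-/

namespace Pool.Agent.Results.MP_abd81c_co.ThreeLongestCycles

open SimpleGraph Pool.Agent.LC

/-- Let `G` be a finite simple cubic 2-connected planar graph. (1) For every cycle `C` of `G` and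
every edge `e` of `C` there is a cycle `C'` through `e` which passes through all vertices of `C`
and has an edge which is not an edge of `C`. (2) For every longest cycle `C` of `G` there are at
least three longest cycles of `G` with the vertex set of `C` (counted as edge sets). (3) `G` has at
least three longest cycles (counted as edge sets). -/
theorem result {V : Type*} [Finite V] (G : SimpleGraph V)
    (hcubic : ∀ v : V, (G.neighborSet v).ncard = 3) (h2 : TwoConnected G) (hd : PlaneDrawing G) :
    (∀ (u : V) (C : G.Walk u u), C.IsCycle → ∀ e ∈ C.edges,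
      ∃ (w : V) (C' : G.Walk w w), C'.IsCycle ∧ e ∈ C'.edges ∧
        (∀ x, x ∈ C.support → x ∈ C'.support) ∧ ∃ f ∈ C'.edges, f ∉ C.edges) ∧
    (∀ (u : V) (C : G.Walk u u), IsLongest G C →
      3 ≤ {E : Set (Sym2 V) | ∃ (w : V) (C' : G.Walk w w), IsLongest G C' ∧
        (∀ x, x ∈ C'.support ↔ x ∈ C.support) ∧ E = {e | e ∈ C'.edges}}.ncard) ∧
    3 ≤ {E : Set (Sym2 V) | ∃ (w : V) (C' : G.Walk w w), IsLongest G C' ∧
      E = {e | e ∈ C'.edges}}.ncard := by
  classical
  have := Fintype.ofFinite V
  have h3 : G.IsRegularOfDegree 3 := by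
    intro v
    rw [← SimpleGraph.card_neighborSet_eq_degree, ← Nat.card_eq_fintype_card]
    exact hcubic v
  have hp : PlanarPot G := ⟨h2.2.1, hasPot_of_drawing G hcubic hd⟩
  have hsec : ∀ (u : V) (C : G.Walk u u), C.IsCycle → ∀ e ∈ C.edges,
      ∃ (w : V) (C' : G.Walk w w), C'.IsCycle ∧ e ∈ C'.edges ∧
        (∀ x, x ∈ C.support → x ∈ C'.support) ∧ ∃ f ∈ C'.edges, f ∉ C.edges :=
    fun u C hC e he => second_cycle_edge G h3 h2 (setup_new_path G h3 hp) C hC e he
  refine ⟨hsec, fun u C hC => three_longest hsec C hC, ?_⟩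
  obtain ⟨u, C, hC⟩ := exists_longest G h3 hp.1
  refine (three_longest hsec C hC).trans (Set.ncard_le_ncard ?_ (Set.toFinite _))
  rintro E ⟨w, C', h1, -, h4⟩
  exact ⟨w, C', h1, h4⟩

end Pool.Agent.Results.MP_abd81c_co.ThreeLongestCycles
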